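import Pool.Agent.Helper91.NC.P1
import Pool.Agent.Helper91.NC.X

set_option autoImplicit false
set_option linter.unusedSectionVars false
set_option maxHeartbeats 1000000

namespace Pool.Agent.Results.MP_bc5e1d_co.NikiforovConstant

open Finset SimpleGraph Pool.Agent.Helper91.EC Pool.Agent.Helper91.NC

open Classical in
/-- `λ(G)`: the spectral radius of `G`, the largest eigenvalue of its adjacency matrix -/
noncomputable def specRad {V : Type} [Fintype V] (G : SimpleGraph V) : ℝ :=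
  sSup {μ : ℝ | ∃ y : V → ℝ, y ≠ 0 ∧ (G.adjMatrix ℝ).mulVec y = μ • y}

/-- `C` is admissible: for every `ε` with `0 < ε < C` there is `n₀` such that for every `n ≥ n₀`, every
graph `G` of order `n` with `λ(G) > √⌊n²/4⌋` contains a cycle of length `ℓ` for every integer `ℓ` with
`3 ≤ ℓ ≤ (C - ε) n` -/
def Admissible (C : ℝ) : Prop :=
  ∀ ε : ℝ, 0 < ε → ε < C → ∃ n₀ : ℕ, ∀ n : ℕ, n₀ ≤ n → ∀ G : SimpleGraph (Fin n),
    Real.sqrt ((⌊(n : ℝ) ^ 2 / 4⌋₊ : ℕ) : ℝ) < specRad G →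
      ∀ ℓ : ℕ, 3 ≤ ℓ → (ℓ : ℝ) ≤ (C - ε) * n → (cycleGraph ℓ) ⊑ G

theorem specRad_eq {V : Type} [Fintype V] (G : SimpleGraph V) : specRad G = lam G := rfl

open Classical in
/-- sanity check: `specRad G` is indeed the greatest eigenvalue -/
theorem specRad_isGreatest {V : Type} [Fintype V] [Nonempty V] (G : SimpleGraph V) :
    IsGreatest {μ : ℝ | ∃ y : V → ℝ, y ≠ 0 ∧ (G.adjMatrix ℝ).mulVec y = μ • y} (specRad G) := by
  obtain ⟨x, hx0, hxne, heig, hall⟩ := lam_spec G
  constructor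
  · refine ⟨x, hxne, ?_⟩
    funext v
    rw [mulVec_eq, heig v]
    simp [specRad_eq]
  · rintro μ ⟨y, hy, hμ⟩
    have h1 : ∀ v, nb G y v = μ * y v := by
      intro v
      rw [← mulVec_eq, hμ]; simp
    have h2 := hall y
    have h3 : Q G y = μ * S2 y := by
      unfold Q S2
      rw [mul_sum]
      exact sum_congr rfl fun v _ => by rw [h1 v]; ring
    rw [h3] at h2
    exact le_of_mul_le_mul_right h2 (S2_pos y hy)

theorem floor_eq (n : ℕ) : ⌊(n : ℝ) ^ 2 / 4⌋₊ = n ^ 2 / 4 := by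
  have := Nat.floor_div_eq_div (K := ℝ) (n ^ 2) 4
  push_cast at this
  exact this

/-! ### lower bound -/

theorem lower (c : ℝ) (hc : c ^ 2 - 3 * c + 1 = 0) (hc1 : c ≤ 0.382) (hc0 : 0.38 ≤ c) : Admissible c := by
  classical
  intro ε hε hεc
  obtain ⟨s, hs⟩ : ∃ s : ℝ, s = 1 / 2000 := ⟨_, rfl⟩
  obtain ⟨e, he⟩ : ∃ e : ℝ, e = min (ε / 6) (1 / 36000000) := ⟨_, rfl⟩
  have he0 : 0 < e := by rw [he]; positivity
  have he1 : 6 * e ≤ ε := by
    have : e ≤ ε / 6 := by rw [he]; exact min_le_left _ _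
    linarith
  have he2 : e ≤ 1 / 36000000 := by rw [he]; exact min_le_right _ _
  obtain ⟨n1, hn1⟩ := step1 c hc hc1 hc0 ε e hε hεc he0 he1 (by linarith)
  refine ⟨max n1 100001, ?_⟩
  intro n hn G hG ℓ hℓ3 hℓ
  by_contra hno
  have hnn1 : n1 ≤ n := (le_max_left _ _).trans hn
  have hn5 : 100001 ≤ n := (le_max_right _ _).trans hn
  have hn5r : (100001 : ℝ) ≤ n := by exact_mod_cast hn5
  have hne : Nonempty (Fin n) := ⟨⟨0, by omega⟩⟩
  rw [specRad_eq, floor_eq] at hG
  obtain ⟨G0, hG0, hmax⟩ := Set.exists_max_image {G' : SimpleGraph (Fin n) | ¬ (cycleGraph ℓ) ⊑ G'}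
    lam (Set.toFinite _) ⟨G, hno⟩
  have hG0' : ¬ (cycleGraph ℓ) ⊑ G0 := hG0
  have hl : Real.sqrt ((n ^ 2 / 4 : ℕ) : ℝ) < lam G0 := lt_of_lt_of_le hG (hmax G hno)
  have hlow : ((n : ℝ) - 1) / 2 ≤ lam G0 := by
    refine le_trans ?_ hl.le
    apply Real.le_sqrt_of_sq_le
    have h1 : n ^ 2 ≤ 4 * (n ^ 2 / 4) + 3 := by omega
    have h2 : (n : ℝ) ^ 2 ≤ 4 * ((n ^ 2 / 4 : ℕ) : ℝ) + 3 := by exact_mod_cast h1
    nlinarith
  obtain ⟨x', hx0', hxne', heig', -⟩ := lam_spec G0
  obtain ⟨u, hu⟩ := Finite.exists_max x'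
  have hup : 0 < x' u := by
    obtain ⟨v, hv⟩ := Function.ne_iff.mp hxne'
    have h1 : 0 < x' v := lt_of_le_of_ne (hx0' v) (Ne.symm hv)
    exact lt_of_lt_of_le h1 (hu v)
  set x : Fin n → ℝ := fun v => (x' u)⁻¹ * x' v with hx
  have hx0 : ∀ v, 0 ≤ x v := fun v => mul_nonneg (inv_nonneg.mpr hup.le) (hx0' v)
  have hx1 : ∀ v, x v ≤ 1 := by
    intro v
    rw [hx]; simp only
    rw [inv_mul_le_iff₀ hup, mul_one]; exact hu v
  have hxu : x u = 1 := by simp only [hx]; field_simp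
  have heig : ∀ v, nb G0 x v = lam G0 * x v := by
    intro v
    rw [hx, nb_smul, heig' v]; ring
  have hxne : x ≠ 0 := by
    intro h
    have := congrFun h u
    rw [hxu] at this
    simp at this
  have hQx : Q G0 x = lam G0 * S2 x := by
    unfold Q S2
    rw [mul_sum]
    exact sum_congr rfl fun v _ => by rw [heig v]; ring
  obtain ⟨hodd, F, hFG, htri, y, hyne, hyQ⟩ := hn1 n hnn1 G0 x hx0 hxne (lam G0) hlow hQx.ge ℓ hℓ3 hℓ hG0'
  obtain ⟨A, B, hNBF⟩ := nearbip F htri y hyne (n : ℝ) e s (by rw [Fintype.card_fin]) (by linarith) he0.le (by linarith)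
    (by rw [hs]; norm_num) (by rw [hs]; linarith) (by rw [hs]; norm_num) hyQ
  have hdgFG : ∀ (a : Fin n) (S : Finset (Fin n)), (dg F a S : ℝ) ≤ dg G0 a S := by
    intro a S
    unfold dg
    have : (S.filter (F.Adj a)) ⊆ S.filter (G0.Adj a) := by
      intro b hb
      rw [mem_filter] at hb ⊢
      exact ⟨hb.1, hFG hb.2⟩
    exact_mod_cast card_le_card this
  have hNB : NB G0 A B s n := by
    refine ⟨hNBF.disj, hNBF.cA, hNBF.cB, ?_, ?_⟩
    · intro a ha
      have h1 := hNBF.mA a ha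
      have h2 := hdgFG a B
      linarith
    · intro b hb
      have h1 := hNBF.mB b hb
      have h2 := hdgFG b A
      linarith
  obtain ⟨k', hk'⟩ := hodd
  obtain ⟨k, rfl⟩ : ∃ k, ℓ = 2 * k + 3 := ⟨k' - 1, by omega⟩
  have hext : Ext G0 k x u (n : ℝ) := by
    refine ⟨by rw [Fintype.card_fin], by linarith, hx0, hx1, hxu, heig, hlow, hG0', ?_, ?_⟩
    · intro G' hG'
      exact hmax G' hG'
    · refine hℓ.trans ?_
      have : c - ε ≤ 2 / 5 := by linarith
      exact mul_le_mul_of_nonneg_right this (by linarith)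
  have hfin := step2 G0 k x u n hext A B s hs hNB
  rw [Fintype.card_fin] at hfin
  have h1 : lam G0 ≤ Real.sqrt ((n ^ 2 / 4 : ℕ) : ℝ) := by
    apply Real.le_sqrt_of_sq_le
    exact hfin
  linarith

/-! ### upper bound: the graph `K_s ∨ (n-s) K_1` -/

/-- the graph `K_s ∨ (n-s) K_1` -/
def KI (n s : ℕ) : SimpleGraph (Fin n) where
  Adj i j := i ≠ j ∧ (i.val < s ∨ j.val < s)
  symm := ⟨fun _ _ h => ⟨h.1.symm, h.2.symm⟩⟩
  loopless := ⟨fun _ h => h.1 rfl⟩

theorem card_lt (n k : ℕ) (h : k ≤ n) : (univ.filter fun i : Fin n => i.val < k).card = k := by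
  rw [Fin.card_filter_val_lt, min_eq_right h]

theorem card_ge (n k : ℕ) (h : k ≤ n) : (univ.filter fun i : Fin n => ¬ i.val < k).card = n - k := by
  have h1 := Finset.card_filter_add_card_filter_not (s := (univ : Finset (Fin n))) (fun i : Fin n => i.val < k)
  rw [card_lt n k h, card_univ, Fintype.card_fin] at h1
  omega

theorem KI_free (n s m : ℕ) (hs : s ≤ n) (h : 2 * s < m + 2) : ¬ (cycleGraph (m + 2)) ⊑ KI n s := by
  intro hc
  obtain ⟨f, hf, hadj⟩ := fun_of_contained _ _ hc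
  have h1 : ∀ i : Fin (m + 2), 1 ≤ (if (f i).val < s then 1 else 0) + (if (f (i + 1)).val < s then 1 else 0) := by
    intro i
    rcases (hadj i).2 with h | h
    · simp [h]
    · simp [h]
  have h2 : ∑ i : Fin (m + 2), 1 ≤ ∑ i : Fin (m + 2), ((if (f i).val < s then 1 else 0) + (if (f (i + 1)).val < s then 1 else 0)) :=
    sum_le_sum fun i _ => h1 i
  have h3 : ∑ i : Fin (m + 2), (if (f (i + 1)).val < s then 1 else 0) = ∑ i : Fin (m + 2), (if (f i).val < s then 1 else 0) :=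
    Equiv.sum_comp (Equiv.addRight (1 : Fin (m + 2))) (fun i => if (f i).val < s then 1 else 0)
  rw [sum_add_distrib, h3, ← card_filter, sum_const, smul_eq_mul, mul_one, card_univ, Fintype.card_fin] at h2
  have h4 : (univ.filter fun i : Fin (m + 2) => (f i).val < s).card ≤ (univ.filter fun i : Fin n => i.val < s).card := by
    apply card_le_card_of_injOn f
    · intro i hi
      rw [mem_coe, mem_filter] at hi ⊢
      exact ⟨mem_univ _, hi.2⟩
    · exact hf.injOn
  rw [card_lt n s hs] at h4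
  omega

theorem KI_lam (c : ℝ) (hc : c ^ 2 - 3 * c + 1 = 0) (hc1 : c ≤ 0.382) (hc0 : 0.38 ≤ c) (n s : ℕ) (hsn : s ≤ n) (d : ℝ)
    (hd : 0 < d) (hdn : 5 < d * n) (hs : (c / 2 + d) * n ≤ s) : (n : ℝ) / 2 < lam (KI n s) := by
  classical
  have hn0 : (0 : ℝ) < n := by
    by_contra h
    push Not at h
    have : d * n ≤ 0 := mul_nonpos_of_nonneg_of_nonpos hd.le h
    linarith
  have : Nonempty (Fin n) := ⟨⟨0, by exact_mod_cast hn0⟩⟩
  set y : Fin n → ℝ := fun i => if i.val < s then 1 else c with hy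
  have c1 : ((univ.filter fun i : Fin n => i.val < s).card : ℝ) = s := by rw [card_lt n s hsn]
  have c2 : ((univ.filter fun i : Fin n => ¬ i.val < s).card : ℝ) = n - s := by
    rw [card_ge n s hsn, Nat.cast_sub hsn]
  have hS : S2 y = s + (n - s) * c ^ 2 := by
    unfold S2
    rw [← sum_filter_add_sum_filter_not univ (fun i : Fin n => i.val < s)]
    have e1 : ∑ i ∈ univ.filter (fun i : Fin n => i.val < s), y i ^ 2 = s := by
      rw [sum_congr rfl (g := fun _ => (1 : ℝ)), sum_const, nsmul_eq_mul, c1, mul_one]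
      intro i hi; simp only [mem_filter, mem_univ, true_and] at hi; simp [hy, hi]
    have e2 : ∑ i ∈ univ.filter (fun i : Fin n => ¬ i.val < s), y i ^ 2 = (n - s) * c ^ 2 := by
      rw [sum_congr rfl (g := fun _ => c ^ 2), sum_const, nsmul_eq_mul, c2]
      intro i hi; simp only [mem_filter, mem_univ, true_and] at hi; simp [hy, hi]
    rw [e1, e2]
  have hsum : ∑ i, y i = s + (n - s) * c := by
    rw [← sum_filter_add_sum_filter_not univ (fun i : Fin n => i.val < s)]
    have e1 : ∑ i ∈ univ.filter (fun i : Fin n => i.val < s), y i = s := by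
      rw [sum_congr rfl (g := fun _ => (1 : ℝ)), sum_const, nsmul_eq_mul, c1, mul_one]
      intro i hi; simp only [mem_filter, mem_univ, true_and] at hi; simp [hy, hi]
    have e2 : ∑ i ∈ univ.filter (fun i : Fin n => ¬ i.val < s), y i = (n - s) * c := by
      rw [sum_congr rfl (g := fun _ => c), sum_const, nsmul_eq_mul, c2]
      intro i hi; simp only [mem_filter, mem_univ, true_and] at hi; simp [hy, hi]
    rw [e1, e2]
  have hnb1 : ∀ i : Fin n, i.val < s → nb (KI n s) y i = s + (n - s) * c - 1 := by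
    intro i hi
    unfold nb
    rw [← hsum, ← add_sum_erase univ (fun j => if (KI n s).Adj i j then y j else 0) (mem_univ i),
      ← add_sum_erase univ y (mem_univ i)]
    have e1 : ∑ j ∈ univ.erase i, (if (KI n s).Adj i j then y j else 0) = ∑ j ∈ univ.erase i, y j := by
      refine sum_congr rfl fun j hj => ?_
      have hji : i ≠ j := (mem_erase.mp hj).1.symm
      have : (KI n s).Adj i j := ⟨hji, Or.inl hi⟩
      rw [if_pos this]
    have e2 : y i = 1 := by simp [hy, hi]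
    rw [e1, e2, if_neg (KI n s).irrefl]
    ring
  have hnb2 : ∀ i : Fin n, ¬ i.val < s → nb (KI n s) y i = s := by
    intro i hi
    unfold nb
    have e1 : ∀ j : Fin n, (if (KI n s).Adj i j then y j else 0) = if j.val < s then (1 : ℝ) else 0 := by
      intro j
      by_cases c' : j.val < s
      · have : (KI n s).Adj i j := ⟨fun e => hi (e ▸ c'), Or.inr c'⟩
        rw [if_pos this, if_pos c']
        simp [hy, c']
      · have : ¬ (KI n s).Adj i j := by
          rintro ⟨-, h | h⟩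
          · exact hi h
          · exact c' h
        rw [if_neg this, if_neg c']
    rw [sum_congr rfl (fun j _ => e1 j), ← sum_filter, sum_const, nsmul_eq_mul, mul_one, c1]
  have hQ : Q (KI n s) y = s * (s + (n - s) * c - 1) + (n - s) * (c * s) := by
    unfold Q
    rw [← sum_filter_add_sum_filter_not univ (fun i : Fin n => i.val < s)]
    have e1 : ∑ i ∈ univ.filter (fun i : Fin n => i.val < s), y i * nb (KI n s) y i = s * (s + (n - s) * c - 1) := by
      rw [sum_congr rfl (g := fun _ => (s + (n - s) * c - 1 : ℝ)), sum_const, nsmul_eq_mul, c1]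
      intro i hi
      simp only [mem_filter, mem_univ, true_and] at hi
      rw [hnb1 i hi]; simp [hy, hi]
    have e2 : ∑ i ∈ univ.filter (fun i : Fin n => ¬ i.val < s), y i * nb (KI n s) y i = (n - s) * (c * s) := by
      rw [sum_congr rfl (g := fun _ => (c * s : ℝ)), sum_const, nsmul_eq_mul, c2]
      intro i hi
      simp only [mem_filter, mem_univ, true_and] at hi
      rw [hnb2 i hi]; simp [hy, hi]
    rw [e1, e2]
  have h1 := rayleigh (KI n s) y
  rw [hQ, hS] at h1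
  have hsr : (s : ℝ) ≤ n := by exact_mod_cast hsn
  have hSpos : 0 < (s : ℝ) + (n - s) * c ^ 2 := by
    have : 0 < (c / 2 + d) * n := by positivity
    have h2 : (0 : ℝ) ≤ (n - s) * c ^ 2 := mul_nonneg (by linarith) (sq_nonneg _)
    linarith
  -- write s = (c/2 + d') n
  obtain ⟨d', hd'⟩ : ∃ d' : ℝ, (s : ℝ) = (c / 2 + d') * n := ⟨s / n - c / 2, by field_simp; ring⟩
  have hdd' : d ≤ d' := by
    rw [hd'] at hs
    have := le_of_mul_le_mul_right hs hn0
    linarith
  have hkey : (n : ℝ) / 2 * (s + (n - s) * c ^ 2) < s * (s + (n - s) * c - 1) + (n - s) * (c * s) := by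
    have e1 : (s : ℝ) * (s + (n - s) * c - 1) + (n - s) * (c * s) - n / 2 * (s + (n - s) * c ^ 2) =
        n ^ 2 * (d' * (1 - 3 / 2 * c) + d' ^ 2 * (1 - 2 * c)) - s +
          n ^ 2 * (c ^ 2 - 3 * c + 1) * (- c / 4 + d' * (- 3 / 2)  + 0) := by
      rw [hd']; ring
    rw [hc] at e1
    have h2 : 0 < (n : ℝ) ^ 2 * (d' * (1 - 3 / 2 * c) + d' ^ 2 * (1 - 2 * c)) - s := by
      have h3 : 0 ≤ d' ^ 2 * (1 - 2 * c) := mul_nonneg (sq_nonneg _) (by linarith)
      have h4 : d' * (2 / 5) ≤ d' * (1 - 3 / 2 * c) := mul_le_mul_of_nonneg_left (by linarith) (by linarith)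
      have h5 : d * n ≤ d' * n := mul_le_mul_of_nonneg_right hdd' hn0.le
      have h6 : (n : ℝ) ^ 2 * (d' * (2 / 5)) ≤ n ^ 2 * (d' * (1 - 3 / 2 * c) + d' ^ 2 * (1 - 2 * c)) :=
        mul_le_mul_of_nonneg_left (by linarith) (by positivity)
      have h7 : (n : ℝ) < n ^ 2 * (d' * (2 / 5)) := by nlinarith
      linarith
    linarith
  have h3 : (n : ℝ) / 2 * (s + (n - s) * c ^ 2) < lam (KI n s) * (s + (n - s) * c ^ 2) := lt_of_lt_of_le hkey h1
  exact lt_of_mul_lt_mul_right h3 hSpos.le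

theorem upper (c : ℝ) (hc : c ^ 2 - 3 * c + 1 = 0) (hc1 : c ≤ 0.382) (hc0 : 0.38 ≤ c) (C : ℝ) (hC : c < C) :
    ¬ Admissible C := by
  intro h
  obtain ⟨n0, hn0⟩ := h ((C - c) / 2) (by linarith) (by linarith)
  obtain ⟨g, hg⟩ : ∃ g : ℝ, g = min ((C - c) / 2) (1 / 10) := ⟨_, rfl⟩
  have hg0 : 0 < g := by rw [hg]; exact lt_min (by linarith) (by norm_num)
  have hg1 : g ≤ (C - c) / 2 := by rw [hg]; exact min_le_left _ _
  have hg2 : g ≤ 1 / 10 := by rw [hg]; exact min_le_right _ _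
  obtain ⟨n, hn⟩ : ∃ n : ℕ, n = max (max n0 10) (⌈50 / g⌉₊) := ⟨_, rfl⟩
  have h1 : n0 ≤ n := by rw [hn]; exact (le_max_left _ _).trans (le_max_left _ _)
  have h2 : 10 ≤ n := by rw [hn]; exact (le_max_right _ _).trans (le_max_left _ _)
  have h3 : 50 / g ≤ (n : ℝ) := by
    refine (Nat.le_ceil _).trans ?_
    rw [hn]
    exact_mod_cast le_max_right _ _
  rw [div_le_iff₀ hg0] at h3
  have h2r : (10 : ℝ) ≤ n := by exact_mod_cast h2
  obtain ⟨s, hs⟩ : ∃ s : ℕ, s = ⌈(c / 2 + g / 8) * n⌉₊ := ⟨_, rfl⟩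
  have hs1 : (c / 2 + g / 8) * n ≤ s := by rw [hs]; exact Nat.le_ceil _
  have hs2 : (s : ℝ) < (c / 2 + g / 8) * n + 1 := by
    rw [hs]; exact Nat.ceil_lt_add_one (by positivity)
  have hsn : s ≤ n := by
    have : (s : ℝ) ≤ n := by nlinarith
    exact_mod_cast this
  have hlam := KI_lam c hc hc1 hc0 n s hsn (g / 8) (by positivity) (by linarith) hs1
  have hcyc := hn0 n h1 (KI n s) (by
    rw [specRad_eq, floor_eq]
    refine lt_of_le_of_lt ?_ hlam
    rw [Real.sqrt_le_left (by linarith)]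
    have : n ^ 2 / 4 * 4 ≤ n ^ 2 := Nat.div_mul_le_self _ _
    have h4 : ((n ^ 2 / 4 : ℕ) : ℝ) * 4 ≤ (n : ℝ) ^ 2 := by exact_mod_cast this
    linarith) (2 * s + 1) (by
      have : (1 : ℝ) ≤ s := by nlinarith
      have : 1 ≤ s := by exact_mod_cast this
      omega) (by
      push_cast
      nlinarith)
  exact KI_free n s (2 * s - 1) hsn (by omega) (by
    have : 1 ≤ s := by
      have : (1 : ℝ) ≤ s := by nlinarith
      exact_mod_cast this
    rw [show 2 * s - 1 + 2 = 2 * s + 1 by omega]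
    exact hcyc)

/-- **Nikiforov's constant.** The largest admissible constant is `C* = (3 - √5)/2`. -/
theorem result : IsGreatest {C : ℝ | 0 < C ∧ Admissible C} ((3 - Real.sqrt 5) / 2) := by
  obtain ⟨r, hr⟩ : ∃ r : ℝ, r = Real.sqrt 5 := ⟨_, rfl⟩
  have hr2 : r ^ 2 = 5 := by rw [hr]; exact Real.sq_sqrt (by norm_num)
  have hr0 : 0 ≤ r := by rw [hr]; exact Real.sqrt_nonneg _
  rw [← hr]
  have hra : 2.236 ≤ r := by nlinarith
  have hrb : r ≤ 2.24 := by nlinarith
  have hc : ((3 - r) / 2) ^ 2 - 3 * ((3 - r) / 2) + 1 = 0 := by nlinarith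
  have hc1 : (3 - r) / 2 ≤ 0.382 := by linarith
  have hc0 : 0.38 ≤ (3 - r) / 2 := by linarith
  refine ⟨⟨by linarith, lower _ hc hc1 hc0⟩, ?_⟩
  rintro C ⟨-, hC⟩
  by_contra hlt
  push Not at hlt
  exact upper _ hc hc1 hc0 C hlt hC

end Pool.Agent.Results.MP_bc5e1d_co.NikiforovConstant
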